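import Mathlib
import Pool.Agent.H43.G.R_seed8.H469R2.NK.KL

/-!
# Gaussian smoothing at two scales
-/

set_option autoImplicit false

open MeasureTheory Filter Topology
open scoped ENNReal
open Pool.Agent.H469R2.NK (e norm_e e_add conj_e e_zero)

namespace Pool.Agent.Q83.WG

/-- Gaussian kernel of width `δ`. -/
noncomputable def G (δ u : ℝ) : ℝ := δ⁻¹ * Real.exp (-(Real.pi * (u / δ) ^ 2))

lemma G_nonneg {δ : ℝ} (hδ : 0 < δ) (u : ℝ) : 0 ≤ G δ u := by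
  unfold G; positivity

lemma G_le {δ : ℝ} (hδ : 0 < δ) (u : ℝ) : G δ u ≤ δ⁻¹ := by
  unfold G
  have : Real.exp (-(Real.pi * (u / δ) ^ 2)) ≤ 1 := by
    rw [Real.exp_le_one_iff]
    have := Real.pi_pos
    nlinarith [sq_nonneg (u / δ), mul_nonneg Real.pi_pos.le (sq_nonneg (u / δ))]
  calc δ⁻¹ * Real.exp (-(Real.pi * (u / δ) ^ 2)) ≤ δ⁻¹ * 1 := by gcongr
    _ = δ⁻¹ := mul_one _

/-- the weight in frequency -/
noncomputable def gw (δ θ : ℝ) : ℝ := Real.exp (-(Real.pi * (δ * θ) ^ 2))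

lemma continuous_e : Continuous e := by
  unfold Pool.Agent.H469R2.NK.e
  fun_prop

lemma gw_cont (δ : ℝ) : Continuous (gw δ) := by unfold gw; fun_prop

lemma gw_pos (δ θ : ℝ) : 0 < gw δ θ := Real.exp_pos _

lemma gw_le_one (δ θ : ℝ) : gw δ θ ≤ 1 := by
  unfold gw
  rw [Real.exp_le_one_iff]
  nlinarith [mul_nonneg Real.pi_pos.le (sq_nonneg (δ * θ))]

lemma gw_integrable {δ : ℝ} (hδ : 0 < δ) : Integrable (gw δ) := by
  have h := integrable_exp_neg_mul_sq (b := Real.pi * δ ^ 2) (by positivity)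
  refine h.congr (ae_of_all _ fun θ => ?_)
  simp only [gw]
  congr 1
  ring

lemma gw_integral {δ : ℝ} (hδ : 0 < δ) : ∫ θ, gw δ θ = δ⁻¹ := by
  have h := integral_gaussian (Real.pi * δ ^ 2)
  have h2 : ∫ θ, gw δ θ = ∫ x : ℝ, Real.exp (-(Real.pi * δ ^ 2) * x ^ 2) := by
    refine integral_congr_ae (ae_of_all _ fun θ => ?_)
    simp only [gw]
    congr 1
    ring
  rw [h2, h]
  rw [show Real.pi / (Real.pi * δ ^ 2) = (δ⁻¹) ^ 2 by
    have := Real.pi_pos.ne'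
    field_simp]
  exact Real.sqrt_sq (by positivity)

lemma gauss_int {δ : ℝ} (hδ : 0 < δ) (u : ℝ) :
    ∫ θ : ℝ, e (θ * u) * ((gw δ θ : ℝ) : ℂ) = ((G δ u : ℝ) : ℂ) := by
  have hb : 0 < ((Real.pi * δ ^ 2 : ℝ) : ℂ).re := by
    rw [Complex.ofReal_re]; positivity
  have h := fourierIntegral_gaussian hb ((2 * Real.pi * u : ℝ) : ℂ)
  have h2 : ∫ θ : ℝ, e (θ * u) * ((gw δ θ : ℝ) : ℂ) =
      ∫ x : ℝ, Complex.exp (Complex.I * ((2 * Real.pi * u : ℝ) : ℂ) * x) *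
        Complex.exp (-((Real.pi * δ ^ 2 : ℝ) : ℂ) * (x : ℂ) ^ 2) := by
    refine integral_congr_ae (ae_of_all _ fun θ => ?_)
    simp only [gw, Pool.Agent.H469R2.NK.e]
    congr 1
    · congr 1
      push_cast
      ring
    · rw [Complex.ofReal_exp]
      congr 1
      push_cast
      ring
  rw [h2, h]
  have h3 : ((Real.pi : ℂ) / ((Real.pi * δ ^ 2 : ℝ) : ℂ)) ^ (1 / 2 : ℂ) = ((δ⁻¹ : ℝ) : ℂ) := by
    have h4 : (Real.pi : ℂ) / ((Real.pi * δ ^ 2 : ℝ) : ℂ) = (((δ⁻¹) ^ 2 : ℝ) : ℂ) := by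
      have := Real.pi_pos.ne'
      rw [← Complex.ofReal_div]
      congr 1
      field_simp
    rw [h4, show (1 / 2 : ℂ) = ((1 / 2 : ℝ) : ℂ) by push_cast; ring,
      ← Complex.ofReal_cpow (by positivity), ← Real.sqrt_eq_rpow, Real.sqrt_sq (by positivity)]
  have := Real.pi_pos.ne'
  have h5 : -((2 * Real.pi * u : ℝ) : ℂ) ^ 2 / (4 * ((Real.pi * δ ^ 2 : ℝ) : ℂ)) =
      ((-(Real.pi * (u / δ) ^ 2) : ℝ) : ℂ) := by
    rw [show -((2 * Real.pi * u : ℝ) : ℂ) ^ 2 / (4 * ((Real.pi * δ ^ 2 : ℝ) : ℂ)) =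
      ((-(2 * Real.pi * u) ^ 2 / (4 * (Real.pi * δ ^ 2)) : ℝ) : ℂ) by push_cast; ring]
    congr 1
    field_simp
    ring
  rw [h3, h5, ← Complex.ofReal_exp, ← Complex.ofReal_mul]
  rfl

section Sums

variable {ι : Type*} (T : Finset ι) (S : ι → ℝ)

lemma sum_G_eq {δ : ℝ} (hδ : 0 < δ) (N : ℝ) :
    ((∑ x ∈ T, G δ (S x - N) : ℝ) : ℂ) =
      ∫ θ : ℝ, (∑ x ∈ T, e (θ * S x)) * e (-(θ * N)) * ((gw δ θ : ℝ) : ℂ) := by
  rw [Complex.ofReal_sum]
  have h1 : ∀ x ∈ T, ((G δ (S x - N) : ℝ) : ℂ) =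
      ∫ θ : ℝ, e (θ * (S x - N)) * ((gw δ θ : ℝ) : ℂ) := fun x _ => (gauss_int hδ _).symm
  rw [Finset.sum_congr rfl h1, ← integral_finsetSum]
  · refine integral_congr_ae (ae_of_all _ fun θ => ?_)
    simp only
    rw [Finset.sum_mul, Finset.sum_mul]
    refine Finset.sum_congr rfl fun x _ => ?_
    rw [← e_add]
    congr 2
    ring
  · intro x _
    refine (gw_integrable hδ).ofReal.bdd_mul (c := 1) ?_ (ae_of_all _ fun θ => ?_)
    · exact (continuous_e.comp (by fun_prop)).aestronglyMeasurable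
    · rw [norm_e]

/-- Comparison of the two smoothings, uniformly in the target. -/
lemma sum_G_sub_le {δ H : ℝ} (hδ : 0 < δ) (hH : δ ≤ H) (N : ℝ) :
    ENNReal.ofReal |∑ x ∈ T, G δ (S x - N) - ∑ x ∈ T, G H (S x - N)| ≤
      ∫⁻ θ : ℝ, ‖∑ x ∈ T, e (θ * S x)‖ₑ * ENNReal.ofReal (gw δ θ - gw H θ) := by
  have hH0 : 0 < H := hδ.trans_le hH
  have hint : ∀ r : ℝ, 0 < r → Integrable fun θ : ℝ =>
      (∑ x ∈ T, e (θ * S x)) * e (-(θ * N)) * ((gw r θ : ℝ) : ℂ) := by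
    intro r hr
    refine (gw_integrable hr).ofReal.bdd_mul (c := T.card) ?_ (ae_of_all _ fun θ => ?_)
    · refine Continuous.aestronglyMeasurable ?_
      refine Continuous.mul (continuous_finsetSum _ fun x _ => continuous_e.comp (by fun_prop)) ?_
      exact continuous_e.comp (by fun_prop)
    · rw [norm_mul, norm_e, mul_one]
      refine (norm_sum_le _ _).trans ?_
      simp [norm_e]
  have h1 : ((∑ x ∈ T, G δ (S x - N) - ∑ x ∈ T, G H (S x - N) : ℝ) : ℂ) =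
      ∫ θ : ℝ, (∑ x ∈ T, e (θ * S x)) * e (-(θ * N)) * ((gw δ θ - gw H θ : ℝ) : ℂ) := by
    rw [Complex.ofReal_sub, sum_G_eq T S hδ, sum_G_eq T S hH0, ← integral_sub (hint δ hδ) (hint H hH0)]
    refine integral_congr_ae (ae_of_all _ fun θ => ?_)
    simp only
    push_cast
    ring
  have hw : ∀ θ, 0 ≤ gw δ θ - gw H θ := by
    intro θ
    rw [sub_nonneg]
    unfold gw
    apply Real.exp_le_exp.mpr
    have : (δ * θ) ^ 2 ≤ (H * θ) ^ 2 := by
      rw [mul_pow, mul_pow]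
      gcongr
    nlinarith [Real.pi_pos]
  rw [← Real.norm_eq_abs, ← Complex.norm_real, h1, ofReal_norm]
  refine (enorm_integral_le_lintegral_enorm _).trans ?_
  refine lintegral_mono fun θ => ?_
  rw [enorm_mul, enorm_mul]
  have h2 : ‖e (-(θ * N))‖ₑ = 1 := by rw [← ofReal_norm, norm_e]; simp
  rw [h2, mul_one]
  gcongr
  rw [← ofReal_norm, Complex.norm_real, Real.norm_of_nonneg (hw θ)]

end Sums

end Pool.Agent.Q83.WG
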