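import Mathlib
import Pool.Agent.H43.G.R_pool_sql_team_seeded_3997aac3.Q83.WG.F

/-!
# From dyadic scales to all large targets
-/

set_option autoImplicit false

open MeasureTheory Filter Topology Set

namespace Pool.Agent.Q83.WG

lemma poly_le_geom (b : ℕ) (K w : ℝ) (hw : 0 < w) :
    ∀ᶠ n : ℕ in atTop, K * (n : ℝ) ^ b ≤ ((2 : ℝ) ^ n) ^ w := by
  have hr : ‖(2 : ℝ) ^ (-w)‖ < 1 := by
    rw [Real.norm_of_nonneg (by positivity)]
    exact Real.rpow_lt_one_of_one_lt_of_neg (by norm_num) (by linarith)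
  have hs := (summable_pow_mul_geometric_of_norm_lt_one b hr).tendsto_atTop_zero.const_mul K
  rw [mul_zero] at hs
  filter_upwards [hs.eventually (ge_mem_nhds (show (0 : ℝ) < 1 by norm_num))] with n hn
  rw [← rpow_two_pow, Real.rpow_neg (by positivity)] at hn
  have : 0 < ((2 : ℝ) ^ n) ^ w := by positivity
  rw [← mul_assoc, ← div_eq_mul_inv, div_le_one this] at hn
  exact hn

lemma Rep.mono {ι : Type*} {S : (ι → ℕ) → ℝ} {P Q : (ι → ℕ) → Prop} {N r r' m m' : ℝ}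
    (h : Rep S P N r m) (hPQ : ∀ x, P x → Q x) (hr : r ≤ r') (hm : m' ≤ m) : Rep S Q N r' m' := by
  obtain ⟨T, h1, h2⟩ := h
  exact ⟨T, hm.trans h1, fun x hx => ⟨hPQ x (h2 x hx).1, (h2 x hx).2.trans hr⟩⟩

/-- from dyadic scales to all large real targets -/
theorem wrap {ι : Type*} (S : (ι → ℕ) → ℝ) (P : (ι → ℕ) → Prop) (q η : ℝ)
    (h : ∀ γ : ℚ, 0 ≤ γ → (γ : ℝ) < η → ∃ c : ℝ, 0 < c ∧ ∃ b : ℕ, ∀ᶠ n : ℕ in atTop,
      ∀ N : ℝ, (2 : ℝ) ^ n ≤ N → N ≤ 2 * (2 : ℝ) ^ n →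
        Rep S P N (n * ((2 : ℝ) ^ n) ^ (-(γ : ℝ))) (c * (n : ℝ)⁻¹ ^ b * ((2 : ℝ) ^ n) ^ (q - 1 - γ)))
    (γ : ℝ) (hγ : 0 ≤ γ) (hγη : γ < η) (ε : ℝ) (hε : 0 < ε) :
    ∀ᶠ N : ℝ in atTop, Rep S P N (N ^ (-γ)) (N ^ (q - 1 - γ - ε)) := by
  obtain ⟨γ', h1, h2⟩ := exists_rat_btwn (lt_min hγη (by linarith : γ < γ + ε / 2))
  have h2a : (γ' : ℝ) < η := h2.trans_le (min_le_left _ _)
  have h2b : (γ' : ℝ) < γ + ε / 2 := h2.trans_le (min_le_right _ _)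
  obtain ⟨c, hc, b, hn⟩ := h γ' (by exact_mod_cast (hγ.trans h1.le)) h2a
  have e1 := poly_le_geom 1 (2 ^ γ) (γ' - γ) (by linarith)
  have e2 := poly_le_geom b (2 ^ |q - 1 - γ - ε| / c) (ε + γ - γ') (by linarith)
  obtain ⟨n1, hn1⟩ := eventually_atTop.mp (hn.and (e1.and (e2.and (eventually_ge_atTop 1))))
  filter_upwards [eventually_ge_atTop ((2 : ℝ) ^ (n1 + 1))] with N hN
  have hN1 : 1 ≤ N := le_trans (one_le_pow₀ (by norm_num)) hN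
  obtain ⟨n, ha, hb⟩ := exists_nat_pow_near hN1 (show (1 : ℝ) < 2 by norm_num)
  have hnn1 : n1 ≤ n := by
    by_contra hcon
    have : n + 1 ≤ n1 + 1 := by omega
    have := pow_le_pow_right₀ (show (1 : ℝ) ≤ 2 by norm_num) this
    linarith
  obtain ⟨g1, g2, g3, g4⟩ := hn1 n hnn1
  have hN0 : 0 < N := by linarith
  have hX0 : (0 : ℝ) < 2 ^ n := by positivity
  have hnpos : (0 : ℝ) < n := by exact_mod_cast g4
  have hb' : N ≤ 2 * 2 ^ n := by rw [pow_succ] at hb; linarith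
  refine (g1 N ha hb').mono (fun _ h => h) ?_ ?_
  · -- tolerance
    have s1 : (2 * (2 : ℝ) ^ n) ^ (-γ) ≤ N ^ (-γ) :=
      Real.rpow_le_rpow_of_nonpos hN0 hb' (by linarith)
    refine le_trans ?_ s1
    rw [pow_one] at g2
    rw [Real.mul_rpow (by norm_num) hX0.le, Real.rpow_neg (by norm_num : (0:ℝ) ≤ 2) γ]
    have s2 : ((2 : ℝ) ^ n) ^ (γ' - γ) * ((2 : ℝ) ^ n) ^ (-(γ' : ℝ)) = ((2 : ℝ) ^ n) ^ (-γ) := by
      rw [← Real.rpow_add hX0]; congr 1; ring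
    rw [← s2]
    have h2g : (0 : ℝ) < 2 ^ γ := by positivity
    have hp : (0 : ℝ) < ((2 : ℝ) ^ n) ^ (-(γ' : ℝ)) := by positivity
    calc (n : ℝ) * ((2 : ℝ) ^ n) ^ (-(γ' : ℝ)) = (2 ^ γ)⁻¹ * ((2 ^ γ * n) * ((2 : ℝ) ^ n) ^ (-(γ' : ℝ))) := by
          field_simp
      _ ≤ (2 ^ γ)⁻¹ * (((2 : ℝ) ^ n) ^ ((γ' : ℝ) - γ) * ((2 : ℝ) ^ n) ^ (-(γ' : ℝ))) := by gcongr
  · -- count
    set y := q - 1 - γ - ε with hy
    have s1 : N ^ y ≤ 2 ^ |y| * ((2 : ℝ) ^ n) ^ y := by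
      rcases le_or_gt 0 y with h | h
      · rw [abs_of_nonneg h, ← Real.mul_rpow (by norm_num) hX0.le]
        exact Real.rpow_le_rpow hN0.le hb' h
      · calc N ^ y ≤ ((2 : ℝ) ^ n) ^ y := Real.rpow_le_rpow_of_nonpos hX0 ha h.le
          _ ≤ 2 ^ |y| * ((2 : ℝ) ^ n) ^ y := by
            have : (1 : ℝ) ≤ 2 ^ |y| := Real.one_le_rpow (by norm_num) (abs_nonneg _)
            have h' : 0 < ((2 : ℝ) ^ n) ^ y := by positivity
            nlinarith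
    refine s1.trans ?_
    have s2 : ((2 : ℝ) ^ n) ^ (q - 1 - (γ' : ℝ)) = ((2 : ℝ) ^ n) ^ (ε + γ - γ') * ((2 : ℝ) ^ n) ^ y := by
      rw [← Real.rpow_add hX0]; congr 1; rw [hy]; ring
    rw [s2, ← mul_assoc]
    refine mul_le_mul_of_nonneg_right ?_ (by positivity)
    rw [div_mul_eq_mul_div, div_le_iff₀ hc] at g3
    rw [inv_pow]
    rw [mul_assoc, mul_comm _ (((2 : ℝ) ^ n) ^ (ε + γ - γ')), ← mul_assoc, ← div_eq_mul_inv,
      le_div_iff₀ (by positivity)]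
    linarith

end Pool.Agent.Q83.WG
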