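import Mathlib
import Pool.Agent.H43.G.R_pool_sql_team_seeded_3997aac3.Q83.WG.G

/-!
# The mean square bound at all scales
-/

set_option autoImplicit false

open MeasureTheory Filter Topology Set
open scoped ENNReal
open Pool.Agent.H469R2.NK (e norm_e e_add conj_e e_zero)

namespace Pool.Agent.Q83.WG

lemma two_pow_tendsto : Tendsto (fun n : ℕ => (2 : ℝ) ^ n) atTop atTop :=
  tendsto_pow_atTop_atTop_of_one_lt (by norm_num)

/-- mean squares over dense sets, all scales -/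
theorem ms_scale (P : Set ℕ) (hP : Dense P) (p c2 c3 c6 R : ℝ) (hp0 : 0 < p) (hp1 : p ≤ 1)
    (hc2 : 0 ≤ c2) (hc3 : 0 < c3) (hc6 : 0 < c6) (hR : 3 / 2 ≤ R) :
    ∃ C c1 : ℝ, 1 ≤ C ∧ 0 < c1 ∧ ∃ n0 : ℕ, 1 ≤ n0 ∧ ∀ n : ℕ, n0 ≤ n → ∀ Q : ℝ,
      c3 * ((2 : ℝ) ^ n) ^ p ≤ Q → Q ≤ c6 * 2 ^ n →
      (J P Q (R * Q)).Nonempty ∧ c1 * Q / n ≤ ((J P Q (R * Q)).card : ℝ) ∧
      ∀ (μ : Measure ℝ) [IsProbabilityMeasure μ] (ψ : ℕ → ℝ → ℝ), (∀ x, Measurable (ψ x)) →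
        ∀ θ : ℝ, 0 < θ →
        (∀ x ∈ J P Q (R * Q), ∀ y ∈ J P Q (R * Q), x ≠ y →
          ‖∫ t, e (θ * ψ x t - θ * ψ y t) ∂μ‖ ≤ (c2 * Q / (θ * 2 ^ n)) / |(x : ℝ) - y|) →
        (((2 : ℝ) ^ n)⁻¹ ≤ θ → θ ≤ 1 →
          Real.sqrt (∫ t, ‖∑ x ∈ J P Q (R * Q), e (θ * ψ x t)‖ ^ 2 ∂μ) ≤
          (C * n) * (J P Q (R * Q)).card * (θ * 2 ^ n) ^ (-(p / 2))) ∧
        (1 ≤ θ → Real.sqrt (∫ t, ‖∑ x ∈ J P Q (R * Q), e (θ * ψ x t)‖ ^ 2 ∂μ) ≤
          (C * n) * (J P Q (R * Q)).card * ((2 : ℝ) ^ n) ^ (-(p / 2))) := by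
  obtain ⟨c, z0, hc, hz0, hJ⟩ := J_card_ge hP
  -- logarithms
  set c4 : ℝ := Real.log 2 + |Real.log (R * c6)| with hc4
  have hlog2 : 0 < Real.log 2 := Real.log_pos (by norm_num)
  have hc40 : 0 < c4 := by positivity
  set c1 : ℝ := c / c4 with hc1
  have hc10 : 0 < c1 := by positivity
  set C0 : ℝ := Real.sqrt (1 / (c1 * c3) + 2 * c2 * (1 + c4) / c1) with hC0
  have hev : ∀ᶠ n : ℕ in atTop, z0 / c3 ≤ ((2 : ℝ) ^ n) ^ p :=
    (((tendsto_rpow_atTop hp0).comp two_pow_tendsto)).eventually_ge_atTop _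
  obtain ⟨n1, hn1⟩ := eventually_atTop.mp hev
  refine ⟨max 1 C0, c1, le_max_left _ _, hc10, max n1 1, le_max_right _ _, ?_⟩
  intro n hn Q hQ1 hQ2
  have hnn1 : n1 ≤ n := (le_max_left _ _).trans hn
  have hn1' : 1 ≤ n := (le_max_right _ _).trans hn
  have hnpos : (0 : ℝ) < n := by exact_mod_cast hn1'
  have hnone : (1 : ℝ) ≤ n := by exact_mod_cast hn1'
  have hX1 : (1 : ℝ) ≤ 2 ^ n := one_le_pow₀ (by norm_num)
  have hX0 : (0 : ℝ) < 2 ^ n := by positivity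
  have hQz : z0 ≤ Q := by
    refine le_trans ?_ hQ1
    have := hn1 n hnn1
    rw [div_le_iff₀ hc3] at this
    linarith
  have hQ0 : 0 < Q := by linarith
  have hR0 : 0 < R := by linarith
  have hlogR : Real.log (R * Q) ≤ c4 * n := by
    calc Real.log (R * Q) ≤ Real.log (R * c6 * 2 ^ n) :=
          Real.log_le_log (by positivity) (by nlinarith)
      _ = Real.log (R * c6) + n * Real.log 2 := by
          rw [Real.log_mul (by positivity) (by positivity), Real.log_pow]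
      _ ≤ |Real.log (R * c6)| * n + n * Real.log 2 := by
          have := le_abs_self (Real.log (R * c6))
          have h2 := abs_nonneg (Real.log (R * c6))
          nlinarith
      _ = c4 * n := by rw [hc4]; ring
  have hlogQ0 : 0 < Real.log Q := Real.log_pos (by linarith)
  have hlogQ : Real.log Q ≤ c4 * n :=
    le_trans (Real.log_le_log hQ0 (by nlinarith)) hlogR
  have hcard : c1 * Q / n ≤ ((J P Q (R * Q)).card : ℝ) := by
    refine le_trans ?_ (hJ Q R hQz hR)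
    rw [hc1, div_mul_eq_mul_div, div_div]
    exact div_le_div_of_nonneg_left (by positivity) hlogQ0 hlogQ
  have hne : (J P Q (R * Q)).Nonempty := by
    rw [← Finset.card_pos]
    have : (0 : ℝ) < ((J P Q (R * Q)).card : ℝ) := lt_of_lt_of_le (by positivity) hcard
    exact_mod_cast this
  refine ⟨hne, hcard, ?_⟩
  intro μ _ ψ hψ θ hθ hosc
  have hRQ0 : 0 ≤ R * Q := by positivity
  have hms := ms_general μ (J P Q (R * Q)) ⌊R * Q⌋₊ (fun x t => θ * ψ x t)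
    (fun x => (hψ x).const_mul θ) (c2 * Q / (θ * 2 ^ n)) (by positivity)
    (fun x hx => Nat.le_floor ((mem_J hQ0.le hRQ0).mp hx).2.1) hosc
  have hfl1 : 1 ≤ ⌊R * Q⌋₊ := by
    apply Nat.le_floor
    push_cast
    nlinarith
  have hLg0 : 0 ≤ Real.log (⌊R * Q⌋₊ : ℝ) := Real.log_natCast_nonneg _
  have hLg : Real.log (⌊R * Q⌋₊ : ℝ) ≤ c4 * n := by
    refine le_trans (Real.log_le_log (by exact_mod_cast hfl1) (Nat.floor_le hRQ0)) hlogR
  have hfin := ms_final (2 ^ n) p θ c1 c2 c3 c4 Q (J P Q (R * Q)).card (Real.log (⌊R * Q⌋₊ : ℝ)) _ n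
    hn1' hX1 hp0.le hp1 hc10 hc2 hc3 hc40.le hQ0 hθ hcard hQ1 hLg hLg0 hms
  rw [← hC0] at hfin
  have hCn : C0 * n ≤ max 1 C0 * n := by gcongr; exact le_max_right _ _
  have hcard0 : (0 : ℝ) ≤ ((J P Q (R * Q)).card : ℝ) := Nat.cast_nonneg _
  constructor
  · intro h1 h2
    refine (hfin.1 h1 h2).trans ?_
    have : 0 ≤ (θ * 2 ^ n) ^ (-(p / 2)) := by positivity
    gcongr
  · intro h1
    refine (hfin.2 h1).trans ?_
    have : 0 ≤ ((2 : ℝ) ^ n) ^ (-(p / 2)) := by positivity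
    gcongr

/-- the oscillatory integral for a coefficient in a unit interval -/
lemma osc_coef (a v : ℝ) (hv : v ≠ 0) :
    ‖∫ t in Icc a (a + 1), e (t * v)‖ ≤ 1 / (Real.pi * |v|) := by
  rw [integral_Icc_eq_integral_Ioc, ← intervalIntegral.integral_of_le (by linarith)]
  have h1 : ∀ t : ℝ, e (t * v) = Complex.exp (((2 * Real.pi * v : ℝ) : ℂ) * Complex.I * t) := by
    intro t
    unfold Pool.Agent.H469R2.NK.e
    congr 1
    push_cast
    ring
  simp_rw [h1]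
  have hne : ((2 * Real.pi * v : ℝ) : ℂ) * Complex.I ≠ 0 := by
    refine mul_ne_zero ?_ Complex.I_ne_zero
    have := Real.pi_pos
    exact_mod_cast (by positivity : (2 * Real.pi * v) ≠ 0)
  rw [integral_exp_mul_complex hne, norm_div]
  have h2 : ‖((2 * Real.pi * v : ℝ) : ℂ) * Complex.I‖ = 2 * Real.pi * |v| := by
    rw [norm_mul, Complex.norm_I, mul_one, Complex.norm_real, Real.norm_eq_abs, abs_mul,
      abs_of_pos (by positivity)]
  have h3 : ∀ s : ℝ, ‖Complex.exp (((2 * Real.pi * v : ℝ) : ℂ) * Complex.I * s)‖ = 1 := by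
    intro s
    rw [← h1 s, norm_e]
  rw [h2, div_le_div_iff₀ (by have := Real.pi_pos; positivity) (by have := Real.pi_pos; positivity)]
  have h4 := norm_sub_le (Complex.exp (((2 * Real.pi * v : ℝ) : ℂ) * Complex.I * ((a + 1 : ℝ) : ℂ)))
    (Complex.exp (((2 * Real.pi * v : ℝ) : ℂ) * Complex.I * (a : ℂ)))
  rw [h3, h3] at h4
  have hp : 0 ≤ Real.pi * |v| := by have := Real.pi_pos; positivity
  push_cast at h4 ⊢
  nlinarith

end Pool.Agent.Q83.WG
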