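import Mathlib
import Pool.Agent.H43.G.R_pool_sql_team_seeded_3997aac3.Q83.WG.EA

/-!
# Generic exponents: oscillation and windows
-/

set_option autoImplicit false

open MeasureTheory Filter Topology Set
open scoped ENNReal
open Pool.Agent.H469R2.NK (e norm_e e_add conj_e e_zero)

namespace Pool.Agent.Q83.WG

/-- the oscillatory integral in the exponent -/
lemma osc_exp (x y c h θ : ℝ) (hc : 0 < c) (hy : 1 ≤ y) (hxy : y < x) (hh : 0 < h) (hθ : 0 < θ) :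
    ‖∫ u in (0 : ℝ)..1, e (θ * x ^ (c + u * h) - θ * y ^ (c + u * h))‖ ≤
      1 / (Real.pi * (θ * h * (x ^ c * Real.log x - y ^ c * Real.log y))) := by
  have hy0 : 0 < y := by linarith
  have hx0 : 0 < x := by linarith
  have hx1 : 1 < x := by linarith
  have hlx : 0 < Real.log x := Real.log_pos hx1
  have hly : 0 ≤ Real.log y := Real.log_nonneg hy
  have hlxy : Real.log y ≤ Real.log x := Real.log_le_log hy0 hxy.le
  have hd : ∀ a : ℝ, 0 < a → ∀ u : ℝ, HasDerivAt (fun u => a ^ (c + u * h))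
      (Real.log a * h * a ^ (c + u * h)) u := by
    intro a ha u
    have h1 : HasDerivAt (fun u : ℝ => c + u * h) h u := by
      simpa using ((hasDerivAt_id u).mul_const h).const_add c
    exact h1.const_rpow ha
  have key := first_deriv (fun u => θ * x ^ (c + u * h) - θ * y ^ (c + u * h))
    (fun u => θ * (Real.log x * h * x ^ (c + u * h)) - θ * (Real.log y * h * y ^ (c + u * h)))
    (fun u => θ * (Real.log x * h * (Real.log x * h * x ^ (c + u * h))) -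
      θ * (Real.log y * h * (Real.log y * h * y ^ (c + u * h))))
    (fun u => ((hd x hx0 u).const_mul θ).sub ((hd y hy0 u).const_mul θ))
    (fun u => (((hd x hx0 u).const_mul _).const_mul θ).sub (((hd y hy0 u).const_mul _).const_mul θ))
    (by
      have hcont : ∀ a : ℝ, 0 < a → Continuous fun u => a ^ (c + u * h) := fun a ha =>
        continuous_iff_continuousAt.mpr fun u => (hd a ha u).continuousAt
      have h1 := hcont x hx0
      have h2 := hcont y hy0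
      fun_prop)
    (by
      simp only [zero_mul, add_zero]
      rw [sub_pos]
      have h1 : y ^ c < x ^ c := Real.rpow_lt_rpow hy0.le hxy hc
      have h2 : 0 < y ^ c := by positivity
      have h3 : Real.log y * h * y ^ c < Real.log x * h * x ^ c := by
        calc Real.log y * h * y ^ c ≤ Real.log x * h * y ^ c := by gcongr
          _ < Real.log x * h * x ^ c := by gcongr
      gcongr)
    (by
      intro u hu
      rw [sub_nonneg]
      have h1 : y ^ (c + u * h) ≤ x ^ (c + u * h) :=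
        Real.rpow_le_rpow hy0.le hxy.le (by have := hu.1; positivity)
      gcongr)
  refine key.trans (le_of_eq ?_)
  simp only [zero_mul, add_zero]
  congr 2
  ring

/-- lower bound for the derivative -/
lemma deriv_low (x y c Q : ℝ) (hc : 1 ≤ c) (hQ : 1 ≤ Q) (hy : Q < y) (hxy : y < x) :
    Real.log Q * (Q ^ (c - 1) * (x - y)) ≤ x ^ c * Real.log x - y ^ c * Real.log y := by
  have hQ0 : 0 < Q := by linarith
  have hy0 : 0 < y := by linarith
  have hx0 : 0 < x := by linarith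
  have h1 : Q ^ (c - 1) * (x - y) ≤ x ^ c - y ^ c := by
    refine le_trans ?_ (rpow_diff_ge hc hy0 hxy.le)
    have : Q ^ (c - 1) ≤ y ^ (c - 1) := Real.rpow_le_rpow hQ0.le hy.le (by linarith)
    exact mul_le_mul_of_nonneg_right this (by linarith)
  have h2 : Real.log Q ≤ Real.log y := Real.log_le_log hQ0 hy.le
  have h3 : Real.log y ≤ Real.log x := Real.log_le_log hy0 hxy.le
  have h4 : 0 ≤ Real.log Q := Real.log_nonneg hQ
  have h5 : 0 ≤ Q ^ (c - 1) * (x - y) := mul_nonneg (by positivity) (by linarith)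
  have h6 : 0 < x ^ c := by positivity
  calc Real.log Q * (Q ^ (c - 1) * (x - y)) ≤ Real.log y * (x ^ c - y ^ c) := by
        apply mul_le_mul h2 h1 h5 (h4.trans h2)
    _ ≤ x ^ c * Real.log x - y ^ c * Real.log y := by nlinarith

/-- the oscillation hypothesis for exponents -/
lemma osc_hyp_exp (P : Set ℕ) (c C l R θ : ℝ) (n : ℕ) (hn : 1 ≤ n) (hc : 1 ≤ c) (hcC : c ≤ C)
    (hl : 0 < l) (hR : 3 / 2 ≤ R) (hln : (1 : ℝ) ≤ l ^ 2 * 2 ^ n) (hl1 : l ≤ 1)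
    (hθ : 0 < θ) (x y : ℕ) (hx : x ∈ J P ((l * 2 ^ n) ^ c⁻¹) (R * (l * 2 ^ n) ^ c⁻¹))
    (hy : y ∈ J P ((l * 2 ^ n) ^ c⁻¹) (R * (l * 2 ^ n) ^ c⁻¹)) (hxy : x ≠ y) :
    ‖∫ u, e (θ * (x : ℝ) ^ (c + u / n) - θ * (y : ℝ) ^ (c + u / n)) ∂(U 0)‖ ≤
      ((2 * C / (Real.pi * l * Real.log 2)) * (l * 2 ^ n) ^ c⁻¹ / (θ * 2 ^ n)) / |(x : ℝ) - y| := by
  have hX0 : (0 : ℝ) < 2 ^ n := by positivity
  have hX1 : (1 : ℝ) ≤ 2 ^ n := one_le_pow₀ (by norm_num)
  have hn0 : (0 : ℝ) < n := by exact_mod_cast hn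
  have hc0 : 0 < c := by linarith
  have hlog2 : 0 < Real.log 2 := Real.log_pos (by norm_num)
  obtain ⟨Q, hQ⟩ : ∃ Q : ℝ, Q = (l * 2 ^ n) ^ c⁻¹ := ⟨_, rfl⟩
  rw [← hQ] at hx hy ⊢
  have hlX : 1 ≤ l * 2 ^ n := by nlinarith
  have hQ1 : 1 ≤ Q := by rw [hQ]; exact Real.one_le_rpow hlX (by positivity)
  have hQ0 : 0 < Q := by linarith
  have hQc : Q ^ c = l * 2 ^ n := by rw [hQ]; exact rpow_inv_pow hc (by positivity)
  have hlogQ : Real.log Q * c = Real.log l + n * Real.log 2 := by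
    rw [← Real.log_pow, ← Real.log_mul hl.ne' hX0.ne', ← hQc, Real.log_rpow hQ0]
    ring
  have hlogQ2 : n * Real.log 2 / 2 ≤ Real.log Q * c := by
    have h1 := Real.log_nonneg hln
    rw [Real.log_mul (by positivity) hX0.ne', Real.log_pow, Real.log_pow] at h1
    push_cast at h1
    rw [hlogQ]
    linarith
  have hRQ : 0 ≤ R * Q := by positivity
  rw [mem_J hQ0.le hRQ] at hx hy
  -- the ordered case
  have main : ∀ x y : ℝ, Q < y → y < x →
      ‖∫ u, e (θ * x ^ (c + u / n) - θ * y ^ (c + u / n)) ∂(U 0)‖ ≤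
      ((2 * C / (Real.pi * l * Real.log 2)) * Q / (θ * 2 ^ n)) / (x - y) := by
    intro x y hy hxy
    have e1 : ∫ u, e (θ * x ^ (c + u / n) - θ * y ^ (c + u / n)) ∂(U 0) =
        ∫ u in (0 : ℝ)..1, e (θ * x ^ (c + u * (n : ℝ)⁻¹) - θ * y ^ (c + u * (n : ℝ)⁻¹)) := by
      rw [U, integral_Icc_eq_integral_Ioc, intervalIntegral.integral_of_le zero_le_one, zero_add]
      rfl
    rw [e1]
    refine (osc_exp x y c (n : ℝ)⁻¹ θ hc0 (by linarith) hxy (by positivity) hθ).trans ?_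
    have h1 := deriv_low x y c Q hc hQ1 hy hxy
    have hπ := Real.pi_pos
    have hxy0 : 0 < x - y := by linarith
    have hQc1 : 0 < Q ^ (c - 1) := by positivity
    have h2 : Real.log 2 / (2 * C) * (Q ^ (c - 1) * (x - y)) ≤
        (n : ℝ)⁻¹ * (x ^ c * Real.log x - y ^ c * Real.log y) := by
      have h3 : Real.log 2 / (2 * C) ≤ (n : ℝ)⁻¹ * Real.log Q := by
        calc Real.log 2 / (2 * C) ≤ Real.log 2 / (2 * c) := by gcongr
          _ ≤ (n : ℝ)⁻¹ * Real.log Q := by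
              rw [div_le_iff₀ (by positivity), inv_mul_eq_div, div_mul_eq_mul_div, le_div_iff₀ hn0]
              linarith
      calc Real.log 2 / (2 * C) * (Q ^ (c - 1) * (x - y)) ≤
            ((n : ℝ)⁻¹ * Real.log Q) * (Q ^ (c - 1) * (x - y)) := by gcongr
        _ = (n : ℝ)⁻¹ * (Real.log Q * (Q ^ (c - 1) * (x - y))) := by ring
        _ ≤ _ := by gcongr
    have h4 : ((2 * C / (Real.pi * l * Real.log 2)) * Q / (θ * 2 ^ n)) / (x - y) =
        1 / (Real.pi * (θ * (Real.log 2 / (2 * C) * (Q ^ (c - 1) * (x - y))))) := by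
      have : Q ^ c = Q ^ (c - 1) * Q := by
        rw [← Real.rpow_add_one hQ0.ne']; congr 1; ring
      rw [this] at hQc
      have hX' : (2 : ℝ) ^ n = Q ^ (c - 1) * Q / l := by rw [hQc]; field_simp
      rw [hX']
      have hC0 : 0 < C := by linarith
      field_simp
    rw [h4]
    have hC0 : 0 < C := by linarith
    apply one_div_le_one_div_of_le (by positivity)
    calc Real.pi * (θ * (Real.log 2 / (2 * C) * (Q ^ (c - 1) * (x - y)))) ≤
          Real.pi * (θ * ((n : ℝ)⁻¹ * (x ^ c * Real.log x - y ^ c * Real.log y))) := by gcongr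
      _ = _ := by ring
  rcases lt_or_gt_of_ne hxy with h | h
  · -- x < y
    have h' : (x : ℝ) < y := by exact_mod_cast h
    have e2 : ‖∫ u, e (θ * (x : ℝ) ^ (c + u / n) - θ * (y : ℝ) ^ (c + u / n)) ∂(U 0)‖ =
        ‖∫ u, e (θ * (y : ℝ) ^ (c + u / n) - θ * (x : ℝ) ^ (c + u / n)) ∂(U 0)‖ := by
      rw [← Complex.norm_conj, ← integral_conj]
      congr 1
      refine integral_congr_ae (ae_of_all _ fun u => ?_)
      simp only
      rw [conj_e]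
      congr 1
      ring
    rw [e2, abs_sub_comm, abs_of_pos (by linarith)]
    exact main y x hx.1 h'
  · have h' : (y : ℝ) < x := by exact_mod_cast h
    rw [abs_of_pos (by linarith)]
    exact main x y hy.1 h'

/-- powers of the basic length -/
lemma Q_pow_le (c t l : ℝ) (n : ℕ) (hn : 1 ≤ n) (hc : 1 ≤ c) (h1 : c ≤ t) (h2 : t ≤ c + 1 / n)
    (hl1 : l ≤ 1) (hlX : 1 ≤ l * 2 ^ n) :
    ((l * 2 ^ n) ^ c⁻¹) ^ t ≤ 2 * (l * 2 ^ n) := by
  have hX0 : (0 : ℝ) < 2 ^ n := by positivity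
  have hn0 : (0 : ℝ) < n := by exact_mod_cast hn
  have hc0 : 0 < c := by linarith
  have h0 : 0 < l * 2 ^ n := by linarith
  rw [← Real.rpow_mul h0.le]
  have e1 : c⁻¹ * t ≤ 1 + 1 / n := by
    rw [inv_mul_eq_div, div_le_iff₀ hc0]
    have : (0 : ℝ) < 1 / n := by positivity
    nlinarith
  calc (l * 2 ^ n) ^ (c⁻¹ * t) ≤ (l * 2 ^ n) ^ (1 + 1 / (n : ℝ)) :=
        Real.rpow_le_rpow_of_exponent_le hlX e1
    _ = (l * 2 ^ n) * (l * 2 ^ n) ^ (1 / (n : ℝ)) := by rw [Real.rpow_add h0, Real.rpow_one]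
    _ ≤ (l * 2 ^ n) * ((2 : ℝ) ^ n) ^ (1 / (n : ℝ)) := by
        gcongr
        nlinarith
    _ = 2 * (l * 2 ^ n) := by
        rw [← Real.rpow_natCast 2 n, ← Real.rpow_mul (by norm_num), mul_one_div_cancel hn0.ne',
          Real.rpow_one]
        ring

/-- the pivot window for exponents -/
lemma pivot_exp (P : Set ℕ) (hP : Dense P) (C : ℝ) (hC : 1 ≤ C) :
    ∃ d0 : ℝ, 0 < d0 ∧ ∀ d : ℝ, 0 < d → d < d0 → ∃ cw : ℝ, 0 < cw ∧ ∃ n0 : ℕ, 1 ≤ n0 ∧
      ∀ n : ℕ, n0 ≤ n → ∀ c t : ℝ, 1 ≤ c → c ≤ t → t ≤ c + 1 / n → t ≤ C →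
        ∀ y : ℝ, (2 : ℝ) ^ n / 2 ≤ y → y ≤ 2 * (2 : ℝ) ^ n →
        cw * (n : ℝ)⁻¹ * ((2 : ℝ) ^ n) ^ (-d) *
          ((J P ((1 / 8 * 2 ^ n) ^ c⁻¹) (32 * (1 / 8 * 2 ^ n) ^ c⁻¹)).card : ℝ) ≤
        (((J P ((1 / 8 * 2 ^ n) ^ c⁻¹) (32 * (1 / 8 * 2 ^ n) ^ c⁻¹)).filter
          fun x : ℕ => |(x : ℝ) ^ t - y| ≤ ((2 : ℝ) ^ n) ^ (1 - d)).card : ℝ) := by
  have hC0 : 0 < C := by linarith
  obtain ⟨d0, hd0, hwin⟩ := win P hP C⁻¹ (by positivity)
  refine ⟨d0, hd0, fun d hd hdd => ?_⟩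
  have h2C : (1 : ℝ) ≤ 2 ^ C := Real.one_le_rpow (by norm_num) hC0.le
  have h2C' : (2 : ℝ) ≤ 2 ^ C := by
    calc (2 : ℝ) = 2 ^ (1 : ℝ) := (Real.rpow_one 2).symm
      _ ≤ 2 ^ C := Real.rpow_le_rpow_of_exponent_le (by norm_num) hC
  obtain ⟨c5, hc5⟩ : ∃ c5 : ℝ, c5 = 1 / (C * 2 ^ C) := ⟨_, rfl⟩
  have hc50 : 0 < c5 := by rw [hc5]; positivity
  have hc5' : c5 ≤ 1 / 2 := by
    rw [hc5]
    apply one_div_le_one_div_of_le (by norm_num)
    nlinarith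
  obtain ⟨cw, hcw, nw, hnw, hwin'⟩ := hwin d hd hdd (1 / 2) c5 2 (by norm_num) hc50 hc5' (by norm_num)
  refine ⟨cw / 32, by positivity, max nw 3, le_trans hnw (le_max_left _ _), ?_⟩
  intro n hn c t hc hct htn htC y hy1 hy2
  have hnw' : nw ≤ n := (le_max_left _ _).trans hn
  have hn3 : 3 ≤ n := (le_max_right _ _).trans hn
  have hn1 : 1 ≤ n := by omega
  have hX : (0 : ℝ) < 2 ^ n := by positivity
  have hX1 : (1 : ℝ) ≤ 2 ^ n := one_le_pow₀ (by norm_num)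
  have hX8 : (8 : ℝ) ≤ 2 ^ n := by
    calc (8 : ℝ) = 2 ^ 3 := by norm_num
      _ ≤ 2 ^ n := pow_le_pow_right₀ (by norm_num) hn3
  have hnpos : (0 : ℝ) < n := by exact_mod_cast hn1
  have ht1 : 1 ≤ t := by linarith
  have ht0 : 0 < t := by linarith
  have hc0 : 0 < c := by linarith
  have hy0 : 0 < y := by linarith
  obtain ⟨Q, hQ⟩ : ∃ Q : ℝ, Q = (1 / 8 * 2 ^ n) ^ c⁻¹ := ⟨_, rfl⟩
  have hQt := Q_pow_le c t (1 / 8) n hn1 hc hct htn (by norm_num) (by linarith)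
  rw [← hQ] at hQt ⊢
  have hQ0 : 0 < Q := by rw [hQ]; positivity
  obtain ⟨z, hz⟩ : ∃ z : ℝ, z = y ^ t⁻¹ := ⟨_, rfl⟩
  have hti : 0 ≤ t⁻¹ := by positivity
  have hzt : z ^ t = y := by rw [hz]; exact rpow_inv_pow ht1 hy0.le
  have hz0 : 0 < z := by rw [hz]; positivity
  have hzQ : Q ≤ z := by
    by_contra hcon
    push Not at hcon
    have := Real.rpow_lt_rpow hz0.le hcon ht0
    rw [hzt] at this
    linarith
  have hz2 : 2 * z ≤ 32 * Q := by
    have h1 : z ≤ (2 * 2 ^ n) ^ c⁻¹ := by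
      rw [hz]
      calc y ^ t⁻¹ ≤ (2 * 2 ^ n) ^ t⁻¹ := Real.rpow_le_rpow hy0.le hy2 hti
        _ ≤ (2 * 2 ^ n) ^ c⁻¹ := Real.rpow_le_rpow_of_exponent_le (by linarith)
            (inv_anti₀ hc0 hct)
    have h2 : ((2 : ℝ) * 2 ^ n) ^ c⁻¹ ≤ 16 * Q := by
      rw [show (2 : ℝ) * 2 ^ n = 16 * (1 / 8 * 2 ^ n) by ring,
        Real.mul_rpow (by norm_num) (by positivity), ← hQ]
      have : (16 : ℝ) ^ c⁻¹ ≤ 16 := by
        calc (16 : ℝ) ^ c⁻¹ ≤ 16 ^ (1 : ℝ) :=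
              Real.rpow_le_rpow_of_exponent_le (by norm_num) (inv_le_one_of_one_le₀ hc)
          _ = 16 := Real.rpow_one _
      gcongr
    linarith
  have hz6 : z ≤ 2 * 2 ^ n := by
    rw [hz]
    calc y ^ t⁻¹ ≤ (2 * 2 ^ n) ^ t⁻¹ := Real.rpow_le_rpow hy0.le hy2 hti
      _ ≤ 2 * 2 ^ n := le_rpow_inv ht1 (by linarith)
  have hζ : 1 / 2 * ((2 : ℝ) ^ n) ^ C⁻¹ ≤ z := by
    have h1 : ((2 : ℝ) ^ n / 2) ^ t⁻¹ ≤ z := by rw [hz]; exact Real.rpow_le_rpow (by positivity) hy1 hti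
    have h2 : ((2 : ℝ) ^ n / 2) ^ C⁻¹ ≤ ((2 : ℝ) ^ n / 2) ^ t⁻¹ :=
      Real.rpow_le_rpow_of_exponent_le (by linarith) (inv_anti₀ ht0 htC)
    refine le_trans ?_ (h2.trans h1)
    rw [Real.div_rpow hX.le (by norm_num), div_eq_mul_inv (((2 : ℝ) ^ n) ^ C⁻¹), mul_comm]
    have h3 : (2 : ℝ) ^ C⁻¹ ≤ 2 := by
      calc (2 : ℝ) ^ C⁻¹ ≤ 2 ^ (1 : ℝ) :=
            Real.rpow_le_rpow_of_exponent_le (by norm_num) (inv_le_one_of_one_le₀ hC)
        _ = 2 := Real.rpow_one _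
    have h4 : (1 / 2 : ℝ) ≤ ((2 : ℝ) ^ C⁻¹)⁻¹ := by
      rw [one_div]
      exact inv_anti₀ (by positivity) h3
    exact mul_le_mul_of_nonneg_left h4 (by positivity)
  have hw := hwin' n hnw' z hζ hz6
  obtain ⟨h, hh⟩ : ∃ h : ℝ, h = c5 * z * ((2 : ℝ) ^ n) ^ (-d) := ⟨_, rfl⟩
  rw [← hh] at hw
  have hXd : ((2 : ℝ) ^ n) ^ (-d) ≤ 1 := Real.rpow_le_one_of_one_le_of_nonpos hX1 (by linarith)
  have hXd0 : 0 < ((2 : ℝ) ^ n) ^ (-d) := by positivity
  have hh0 : 0 < h := by rw [hh]; positivity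
  have hhz : h ≤ z := by
    calc h ≤ 1 / 2 * z * 1 := by rw [hh]; gcongr
      _ ≤ z := by linarith
  have hcard : ((J P Q (32 * Q)).card : ℝ) ≤ 32 * z := by
    refine (J_card_le _ (by positivity)).trans ?_
    gcongr
  calc cw / 32 * (n : ℝ)⁻¹ * ((2 : ℝ) ^ n) ^ (-d) * ((J P Q (32 * Q)).card : ℝ)
      ≤ cw / 32 * (n : ℝ)⁻¹ * ((2 : ℝ) ^ n) ^ (-d) * (32 * z) := by gcongr
    _ = cw * z * ((2 : ℝ) ^ n) ^ (-d) / n := by field_simp
    _ ≤ ((J P z (z + h)).card : ℝ) := hw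
    _ ≤ _ := by
        refine Nat.cast_le.mpr (Finset.card_le_card fun x hx => ?_)
        rw [mem_J hz0.le (by positivity)] at hx
        rw [Finset.mem_filter]
        refine ⟨?_, ?_⟩
        · rw [mem_J hQ0.le (by positivity)]
          exact ⟨lt_of_le_of_lt hzQ hx.1, by linarith [hx.2.1], hx.2.2⟩
        · have hx0 : (0 : ℝ) < x := hz0.trans hx.1
          have u1 : (0 : ℝ) ≤ (x : ℝ) ^ t - z ^ t :=
            sub_nonneg.mpr (Real.rpow_le_rpow hz0.le hx.1.le (by linarith))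
          have u2 := rpow_diff_le ht1 hz0 hx.1.le
          rw [← hzt, abs_of_nonneg u1]
          have u4 : (x : ℝ) ^ (t - 1) ≤ (2 * z) ^ (t - 1) :=
            Real.rpow_le_rpow hx0.le (by linarith [hx.2.1]) (by linarith)
          have u5 : (2 * z) ^ (t - 1) * z = 2 ^ t / 2 * z ^ t := by
            rw [Real.mul_rpow (by norm_num) hz0.le, Real.rpow_sub_one (by norm_num),
              Real.rpow_sub_one hz0.ne']
            field_simp
          have u6 : (x : ℝ) - z ≤ h := by linarith [hx.2.1]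
          have u7 : 0 ≤ (x : ℝ) - z := by linarith [hx.1]
          have u8 : (2 : ℝ) ^ t ≤ 2 ^ C := Real.rpow_le_rpow_of_exponent_le (by norm_num) htC
          calc (x : ℝ) ^ t - z ^ t
              ≤ t * (x : ℝ) ^ (t - 1) * ((x : ℝ) - z) := u2
            _ ≤ t * (2 * z) ^ (t - 1) * h := by gcongr
            _ = t * ((2 * z) ^ (t - 1) * z) * (c5 * ((2 : ℝ) ^ n) ^ (-d)) := by
                rw [hh]; ring
            _ = t * (2 ^ t / 2) * y * (c5 * ((2 : ℝ) ^ n) ^ (-d)) := by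
                rw [u5, hzt]; ring
            _ ≤ C * (2 ^ C / 2) * (2 * 2 ^ n) * (c5 * ((2 : ℝ) ^ n) ^ (-d)) := by gcongr
            _ = 2 ^ n * ((2 : ℝ) ^ n) ^ (-d) := by
                rw [hc5]
                field_simp
            _ = ((2 : ℝ) ^ n) ^ (1 - d) := by
                rw [sub_eq_add_neg, Real.rpow_add hX, Real.rpow_one]

/-- a variable which is not the pivot -/
lemma other_exp (P : Set ℕ) (c t C s : ℝ) (hs : 1 ≤ s) (hC : 1 ≤ C) (n : ℕ) (hn : 1 ≤ n) (hc : 1 ≤ c)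
    (hct : c ≤ t) (htn : t ≤ c + 1 / n) (htC : t ≤ C)
    (hlX : 1 ≤ 1 / ((2 : ℝ) ^ C * 2 * (2 * s)) * 2 ^ n) (x : ℕ)
    (hx : x ∈ J P ((1 / ((2 : ℝ) ^ C * 2 * (2 * s)) * 2 ^ n) ^ c⁻¹)
      (3 / 2 * (1 / ((2 : ℝ) ^ C * 2 * (2 * s)) * 2 ^ n) ^ c⁻¹)) :
    0 ≤ (x : ℝ) ^ t ∧ (x : ℝ) ^ t * (2 * s) ≤ (2 : ℝ) ^ n := by
  have h2C : (1 : ℝ) ≤ 2 ^ C := Real.one_le_rpow (by norm_num) (by linarith)
  obtain ⟨l, hl⟩ : ∃ l : ℝ, l = 1 / ((2 : ℝ) ^ C * 2 * (2 * s)) := ⟨_, rfl⟩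
  have hl0 : 0 < l := by rw [hl]; positivity
  have hl1 : l ≤ 1 := by
    rw [hl, div_le_one (by positivity)]
    nlinarith
  rw [← hl] at hlX
  have hQt := Q_pow_le c t l n hn hc hct htn hl1 hlX
  obtain ⟨Q, hQ⟩ : ∃ Q : ℝ, Q = (l * 2 ^ n) ^ c⁻¹ := ⟨_, rfl⟩
  have hQ0 : 0 < Q := by rw [hQ]; positivity
  rw [← hl, ← hQ, mem_J hQ0.le (by positivity)] at hx
  rw [← hQ] at hQt
  have hx0 : (0 : ℝ) < x := hQ0.trans hx.1
  have ht0 : 0 < t := by linarith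
  refine ⟨by positivity, ?_⟩
  have h2 : (x : ℝ) ^ t ≤ (2 * Q) ^ t := by
    apply Real.rpow_le_rpow hx0.le _ ht0.le
    linarith [hx.2.1]
  rw [Real.mul_rpow (by norm_num) hQ0.le] at h2
  have u8 : (2 : ℝ) ^ t ≤ 2 ^ C := Real.rpow_le_rpow_of_exponent_le (by norm_num) htC
  calc (x : ℝ) ^ t * (2 * s) ≤ (2 ^ C * (2 * (l * 2 ^ n))) * (2 * s) := by
        refine mul_le_mul_of_nonneg_right (h2.trans ?_) (by positivity)
        gcongr
    _ = 2 ^ n := by rw [hl]; field_simp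

end Pool.Agent.Q83.WG
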