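import Mathlib
import Pool.Agent.H43.G.R_pool_sql_team_seeded_3997aac3.Q83.WG.EC
import Pool.Agent.H43.G.R_seed8.H469R2.NK.Vdc

/-!
# A discrete second derivative test
-/

set_option autoImplicit false

open MeasureTheory Filter Topology Set
open scoped ENNReal
open Pool.Agent.H469R2.NK (e norm_e e_add conj_e e_zero vdcH kusmin_landau_mono)

namespace Pool.Agent.Q83.WG

lemma harm (H : ℕ) (hH : 1 ≤ H) : ∑ l ∈ Finset.Ico 1 H, (1 : ℝ) / l ≤ 1 + Real.log H := by
  have h := harmonic_le_one_add_log H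
  rw [harmonic_eq_sum_Icc] at h
  push_cast at h
  refine le_trans ?_ h
  have hsub : Finset.Ico 1 H ⊆ Finset.Icc 1 H := by
    intro x hx
    rw [Finset.mem_Ico] at hx
    rw [Finset.mem_Icc]
    omega
  refine (Finset.sum_le_sum_of_subset_of_nonneg hsub fun i _ _ => by positivity).trans (le_of_eq ?_)
  exact Finset.sum_congr rfl fun i _ => one_div _

/-- second differences -/
def dd (x : ℕ → ℝ) (n : ℕ) : ℝ := x (n + 2) - x (n + 1) - (x (n + 1) - x n)

lemma diff_sum (x : ℕ → ℝ) (n l : ℕ) :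
    (x (n + l + 1) - x (n + l)) - (x (n + 1) - x n) = ∑ i ∈ Finset.range l, dd x (n + i) := by
  induction l with
  | zero => simp
  | succ l ih =>
    rw [Finset.sum_range_succ, ← ih]
    unfold dd
    have e1 : n + (l + 1) + 1 = n + l + 2 := by ring
    have e2 : n + (l + 1) = n + l + 1 := by ring
    rw [e1, e2]
    ring

/-- **Second derivative test**, discrete form. -/
theorem vdc2 (x : ℕ → ℝ) (L : ℕ) (hL : 1 ≤ L) (lam Lam : ℝ) (hlam : 0 < lam) (hLam : Lam ≤ 1 / 4)
    (h1 : ∀ n, n + 2 ≤ L → lam ≤ dd x n) (h2 : ∀ n, n + 2 ≤ L → dd x n ≤ Lam)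
    (hm : ∀ n, n + 3 ≤ L → dd x n ≤ dd x (n + 1)) (hLL : lam ≤ Lam) :
    ‖∑ n ∈ Finset.range L, e (x n)‖ ^ 2 ≤
      2 * (1 + 4 * Lam * L) * (L + 4 / lam * (1 + Real.log L)) := by
  have hLam0 : 0 < Lam := hlam.trans_le hLL
  have hL0 : (0 : ℝ) < L := by exact_mod_cast hL
  have hL1 : (1 : ℝ) ≤ L := by exact_mod_cast hL
  -- choice of H
  obtain ⟨H, hH⟩ : ∃ H : ℕ, H = min L ⌊1 / (2 * Lam)⌋₊ := ⟨_, rfl⟩
  have hinv : 2 ≤ 1 / (2 * Lam) := by
    rw [le_div_iff₀ (by positivity)]
    linarith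
  have hfl : 1 ≤ ⌊1 / (2 * Lam)⌋₊ := by
    apply Nat.le_floor
    push_cast
    linarith
  have hH1 : 1 ≤ H := by rw [hH]; exact le_min hL hfl
  have hHL : H ≤ L := by rw [hH]; exact min_le_left _ _
  have hHl : (H : ℝ) ≤ 1 / (2 * Lam) := by
    have : H ≤ ⌊1 / (2 * Lam)⌋₊ := by rw [hH]; exact min_le_right _ _
    refine (Nat.cast_le.mpr this).trans (Nat.floor_le (by positivity))
  have hHpos : (0 : ℝ) < H := by exact_mod_cast hH1
  have hHinv : 1 / (H : ℝ) ≤ 1 / L + 4 * Lam := by
    rcases le_total L ⌊1 / (2 * Lam)⌋₊ with h | h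
    · have : H = L := by rw [hH]; exact min_eq_left h
      rw [this]
      linarith
    · have e1 : H = ⌊1 / (2 * Lam)⌋₊ := by rw [hH]; exact min_eq_right h
      have h3 := Nat.lt_floor_add_one (1 / (2 * Lam))
      have h4 : 1 / (4 * Lam) ≤ (H : ℝ) := by
        rw [e1]
        have e2 : 1 / (2 * Lam) = 1 / (4 * Lam) + 1 / (4 * Lam) := by field_simp; norm_num
        have e3 : 1 ≤ 1 / (4 * Lam) := by
          rw [le_div_iff₀ (by positivity)]; linarith
        linarith
      have h5 : 1 / (H : ℝ) ≤ 4 * Lam := by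
        rw [div_le_iff₀ hHpos]
        rw [div_le_iff₀ (by positivity)] at h4
        linarith
      have : 0 ≤ 1 / (L : ℝ) := by positivity
      linarith
  have hv := vdcH (fun n => e (x n)) (fun n => (norm_e _).le) L H
  have hS : ∀ l ∈ Finset.Ico 1 H, ‖∑ n ∈ Finset.range (L - l), e (x (n + l)) *
      (starRingEnd ℂ) (e (x n))‖ ≤ 2 / lam * (1 / l) := by
    intro l hl
    rw [Finset.mem_Ico] at hl
    have hl0 : (0 : ℝ) < l := by exact_mod_cast (by omega : 0 < l)
    have hlH : (l : ℝ) ≤ H := by exact_mod_cast hl.2.le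
    have e1 : ∑ n ∈ Finset.range (L - l), e (x (n + l)) * (starRingEnd ℂ) (e (x n)) =
        ∑ n ∈ Finset.range (L - l), e ((fun n => x (n + l) - x n) n) := by
      refine Finset.sum_congr rfl fun n _ => ?_
      rw [conj_e, ← e_add]
      rfl
    have hdiff : ∀ n, (fun n => x (n + l) - x n) (n + 1) - (fun n => x (n + l) - x n) n =
        ∑ i ∈ Finset.range l, dd x (n + i) := by
      intro n
      rw [← diff_sum]
      show x (n + 1 + l) - x (n + 1) - (x (n + l) - x n) = _
      have : n + 1 + l = n + l + 1 := by ring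
      rw [this]
      ring
    have hlow : ∀ n < L - l, lam * l ≤ ∑ i ∈ Finset.range l, dd x (n + i) := by
      intro n hn
      calc lam * l = ∑ i ∈ Finset.range l, lam := by rw [Finset.sum_const, Finset.card_range, nsmul_eq_mul]; ring
        _ ≤ _ := Finset.sum_le_sum fun i hi => h1 (n + i) (by have := Finset.mem_range.mp hi; omega)
    have hup : ∀ n < L - l, ∑ i ∈ Finset.range l, dd x (n + i) ≤ 1 / 2 := by
      intro n hn
      calc ∑ i ∈ Finset.range l, dd x (n + i) ≤ ∑ i ∈ Finset.range l, Lam :=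
            Finset.sum_le_sum fun i hi => h2 (n + i) (by have := Finset.mem_range.mp hi; omega)
        _ = Lam * l := by rw [Finset.sum_const, Finset.card_range, nsmul_eq_mul]; ring
        _ ≤ Lam * (1 / (2 * Lam)) := by gcongr; exact hlH.trans hHl
        _ = 1 / 2 := by field_simp
    rw [e1]
    refine (kusmin_landau_mono (fun n => x (n + l) - x n) (L - l) (θ := lam * l) (by positivity)
      (fun n hn => ?_) (fun n hn => ?_) (fun n hn => ?_)).trans (le_of_eq ?_)
    · have := hdiff n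
      rw [this]
      exact hlow n hn
    · have := hdiff n
      rw [this]
      have a1 := hup n hn
      have a2 := hlow n hn
      linarith
    · have a1 := hdiff n
      have a2 := hdiff (n + 1)
      have a3 : (fun n => x (n + l) - x n) (n + 2) - (fun n => x (n + l) - x n) (n + 1) =
        ∑ i ∈ Finset.range l, dd x (n + 1 + i) := a2
      rw [a1, a3]
      refine Finset.sum_le_sum fun i hi => ?_
      have a4 := hm (n + i) (by have := Finset.mem_range.mp hi; omega)
      have a5 : n + 1 + i = n + i + 1 := by ring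
      rw [a5]
      exact a4
    · field_simp
  have hlogH : Real.log H ≤ Real.log L := Real.log_le_log hHpos (by exact_mod_cast hHL)
  have hsum : ∑ l ∈ Finset.Ico 1 H, ‖∑ n ∈ Finset.range (L - l), e (x (n + l)) *
      (starRingEnd ℂ) (e (x n))‖ ≤ 2 / lam * (1 + Real.log L) := by
    calc _ ≤ ∑ l ∈ Finset.Ico 1 H, 2 / lam * (1 / (l : ℝ)) := Finset.sum_le_sum hS
      _ = 2 / lam * ∑ l ∈ Finset.Ico 1 H, 1 / (l : ℝ) := by rw [Finset.mul_sum]
      _ ≤ 2 / lam * (1 + Real.log H) := by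
          gcongr
          exact harm H hH1
      _ ≤ 2 / lam * (1 + Real.log L) := by gcongr
  have hlogL : 0 ≤ Real.log L := Real.log_nonneg hL1
  obtain ⟨S, hSd⟩ : ∃ S : ℝ, S = ‖∑ n ∈ Finset.range L, e (x n)‖ ^ 2 := ⟨_, rfl⟩
  rw [← hSd]
  have hmain : H * S ≤ (2 * L) * (L + 4 / lam * (1 + Real.log L)) := by
    rw [hSd]
    refine hv.trans ?_
    have hHL' : (H : ℝ) ≤ L := by exact_mod_cast hHL
    have : 2 * (2 / lam * (1 + Real.log L)) = 4 / lam * (1 + Real.log L) := by ring
    have h5 : (L : ℝ) + 2 * ∑ l ∈ Finset.Ico 1 H, ‖∑ n ∈ Finset.range (L - l), e (x (n + l)) *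
      (starRingEnd ℂ) (e (x n))‖ ≤ L + 4 / lam * (1 + Real.log L) := by linarith
    have h6 : (L : ℝ) + H ≤ 2 * L := by linarith
    exact mul_le_mul h6 h5 (by positivity) (by positivity)
  have hW : 0 ≤ L + 4 / lam * (1 + Real.log L) := by positivity
  calc S = (1 / (H : ℝ)) * (H * S) := by field_simp
    _ ≤ (1 / (H : ℝ)) * ((2 * L) * (L + 4 / lam * (1 + Real.log L))) := by gcongr
    _ ≤ (1 / L + 4 * Lam) * ((2 * L) * (L + 4 / lam * (1 + Real.log L))) := by gcongr
    _ = _ := by field_simp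

end Pool.Agent.Q83.WG
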